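import Pool.Agent.Y118.UL.Irr
import Pool.Agent.Y916.Af.Stm

/-!
# AF-DEP: dependence of the free coordinates, algebraic parameters

Adaptation of `Pool.Agent.Y118.UL.dep_irr` (helper118).
-/

set_option autoImplicit false
set_option maxHeartbeats 400000

open Filter AlgebraicIndependent

namespace Pool.Agent.Y430.AF

open Pool.Agent.Y118.UL Pool.Agent.Y916.Af

theorem t_dep : Pool.Agent.Y916.Af.S_dep := by
  intro σ ε υ _ _ e R hR k xx halg hxx w Y hirr zp hmem hrel D d K hf hD P hd hP0 y0 hy0 hPy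
  classical
  by_contra hno
  push Not at hno
  set W : Set (U ℂ) := Set.range (fun j : υ => mk ℂ fun n => w n j) with hW
  set z : Fin k × ε → U ℂ := fun b => mk ℂ (fun n => zp n (b.1, e b.2)) with hz
  have h1 := ind_of_cl W z hno
  set L0 := IntermediateField.adjoin (U ℚ) W with hL0
  have h2 : AlgebraicIndependent L0 z := IntermediateField.algebraicIndependent_adjoin_iff.2 h1
  set F := algebraicClosure L0 (U ℂ) with hF
  have h3 : AlgebraicIndependent F z := h2.algebraicClosure
  have hFalg : ∀ c : U ℂ, IsAlgebraic (U ℚ) c → c ∈ F := by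
    intro c hc
    rw [hF, mem_algebraicClosure_iff]
    exact hc.tower_top L0
  have hFw : ∀ c ∈ W, c ∈ F := by
    intro c hc
    have : c ∈ L0 := IntermediateField.subset_adjoin _ _ hc
    exact (F.algebraMap_mem (⟨c, this⟩ : L0))
  -- the polynomial over `F`
  obtain ⟨PP, hPP⟩ := of_seq d (fun n => MvPolynomial.map (algebraMap (K n) ℂ) (P n)) fun n => (tdm _ _).trans (hd n)
  obtain ⟨PF, hPF⟩ := lift_coeffs F (algebraMap F (U ℂ)) (MvPolynomial.map (mk ℂ) PP) (by
    intro m
    rw [MvPolynomial.coeff_map]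
    refine ⟨⟨mk ℂ (PP.coeff m), hFalg _ ?_⟩, rfl⟩
    refine alg_of_degree K hf hD _ fun n => ?_
    have h4 := congrArg (MvPolynomial.coeff m) (hPP n)
    rw [MvPolynomial.coeff_map, MvPolynomial.coeff_map] at h4
    have h5 : PP.coeff m n = algebraMap (K n) ℂ ((P n).coeff m) := h4
    rw [h5]
    exact ((P n).coeff m).2)
  let ww : υ → F := fun j => ⟨mk ℂ fun n => w n j, hFw _ ⟨j, rfl⟩⟩
  let Q : MvPolynomial (Fin k × σ) F := MvPolynomial.aeval (Sum.elim (fun j => MvPolynomial.C (ww j)) MvPolynomial.X) PF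
  have hQ : ∀ ys : ℕ → Fin k × σ → ℂ, MvPolynomial.aeval (fun a => mk ℂ fun n => ys n a) Q =
      mk ℂ fun n => MvPolynomial.aeval (Sum.elim (w n) (ys n)) (P n) := by
    intro ys
    have h4 : MvPolynomial.aeval (fun a => mk ℂ fun n => ys n a) Q =
        MvPolynomial.eval (Sum.elim (fun j => mk ℂ fun n => w n j) fun a => mk ℂ fun n => ys n a)
          (MvPolynomial.map (algebraMap F (U ℂ)) PF) := by
      have h5 : (MvPolynomial.aeval (fun a => mk ℂ fun n => ys n a)).comp
          (MvPolynomial.aeval (Sum.elim (fun j => MvPolynomial.C (ww j)) MvPolynomial.X) :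
            MvPolynomial (υ ⊕ Fin k × σ) F →ₐ[F] MvPolynomial (Fin k × σ) F) =
          MvPolynomial.aeval (Sum.elim (fun j => mk ℂ fun n => w n j) fun a => mk ℂ fun n => ys n a) := by
        refine MvPolynomial.algHom_ext fun i => ?_
        rcases i with j | a
        · simp [ww]
        · simp
      have h6 := DFunLike.congr_fun h5 PF
      rw [AlgHom.comp_apply] at h6
      rw [MvPolynomial.eval_map]
      exact h6
    rw [h4, hPF]
    have h7 : (Sum.elim (fun j => mk ℂ fun n => w n j) fun a => mk ℂ fun n => ys n a : υ ⊕ Fin k × σ → U ℂ) =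
        fun i => mk ℂ (fun n => Sum.elim (w n) (ys n) i) := by
      funext i
      rcases i with j | a <;> rfl
    rw [h7, eval_mk]
    congr 1
    funext n
    rw [hPP, MvPolynomial.eval_map]
    rfl
  -- the prime ideal
  let pt : (ℕ → Fin k × σ → ℂ) → Fin k × σ → U ℂ := fun ys a => mk ℂ fun n => ys n a
  let J : Ideal (MvPolynomial (Fin k × σ) F) :=
    { carrier := {q | ∀ ys : ℕ → Fin k × σ → ℂ, (∀ n, ys n ∈ Y n) → MvPolynomial.aeval (pt ys) q = 0}
      add_mem' := fun {p q} hp hq ys hys => by rw [map_add, hp ys hys, hq ys hys, add_zero]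
      zero_mem' := fun ys _ => map_zero _
      smul_mem' := fun c q hq ys hys => by rw [smul_eq_mul, map_mul, hq ys hys, mul_zero] }
  have hJ : ∀ q, q ∈ J ↔ ∀ ys : ℕ → Fin k × σ → ℂ, (∀ n, ys n ∈ Y n) → MvPolynomial.aeval (pt ys) q = 0 :=
    fun q => Iff.rfl
  have hrep : ∀ q : MvPolynomial (Fin k × σ) F, ∃ qs : ℕ → MvPolynomial (Fin k × σ) ℂ,
      ∀ ys : ℕ → Fin k × σ → ℂ, MvPolynomial.aeval (pt ys) q = mk ℂ fun n => MvPolynomial.eval (ys n) (qs n) := by
    intro q
    obtain ⟨q', hq'⟩ := rep (MvPolynomial.map (algebraMap F (U ℂ)) q)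
    refine ⟨fun n => MvPolynomial.map (Pi.evalRingHom (fun _ => ℂ) n) q', fun ys => ?_⟩
    have h4 := eval_mk q' (fun a n => ys n a)
    rw [hq', MvPolynomial.eval_map] at h4
    exact h4
  have hprime : J.IsPrime := by
    refine ⟨?_, ?_⟩
    · rw [Ideal.ne_top_iff_one]
      intro h4
      have h5 := (hJ 1).1 h4 y0 hy0
      rw [map_one] at h5
      exact one_ne_zero h5
    · intro p q hpq
      by_contra hcon
      push Not at hcon
      obtain ⟨hp, hq⟩ := hcon
      rw [hJ] at hp hq hpq
      push Not at hp hq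
      obtain ⟨y1, hy1, hp1⟩ := hp
      obtain ⟨y2, hy2, hq2⟩ := hq
      obtain ⟨ps, hps⟩ := hrep p
      obtain ⟨qs, hqs⟩ := hrep q
      rw [hps, mk_ne_zero] at hp1
      rw [hqs, mk_ne_zero] at hq2
      have hex : ∀ n, ∃ y ∈ Y n, (MvPolynomial.eval (y1 n) (ps n) ≠ 0 → MvPolynomial.eval (y2 n) (qs n) ≠ 0 →
          MvPolynomial.eval y (ps n) * MvPolynomial.eval y (qs n) ≠ 0) := by
        intro n
        by_contra hc
        push Not at hc
        rcases hirr n (ps n) (qs n) (fun y hy => (hc y hy).2.2) with h4 | h4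
        · exact (hc _ (hy0 n)).1 (h4 _ (hy1 n))
        · exact (hc _ (hy0 n)).2.1 (h4 _ (hy2 n))
      choose y3 hy3 hy3' using hex
      have h5 := hpq y3 hy3
      rw [map_mul, hps, hqs, ← map_mul, mk_eq_zero] at h5
      obtain ⟨n, h6, h7, h8⟩ := (h5.and (hp1.and hq2)).exists
      exact hy3' n h7 h8 h6
  have hdom : IsDomain (MvPolynomial (Fin k × σ) F ⧸ J) := Ideal.Quotient.isDomain J
  -- the algebra
  let E0 := MvPolynomial (Fin k × ε) F
  let e' : Fin k × ε → Fin k × σ := fun b => (b.1, e b.2)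
  let f : E0 →+* (MvPolynomial (Fin k × σ) F ⧸ J) :=
    (Ideal.Quotient.mk J).comp (MvPolynomial.rename (R := F) e').toRingHom
  have hfm : ∀ q : E0, f q = Ideal.Quotient.mk J (MvPolynomial.rename e' q) :=
    fun q => rfl
  -- the coordinates are algebraic
  have hXalg : ∀ a : Fin k × σ, Alg f (Ideal.Quotient.mk J (MvPolynomial.X a)) := by
    rintro ⟨j, s⟩
    let xj : F := ⟨mk ℂ (fun n => xx n j), hFalg _ (halg j)⟩
    let κ : Polynomial ℚ →+* F := Polynomial.eval₂RingHom (Rat.castHom F) xj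
    have hκ : ∀ c : Polynomial ℚ, ((κ c : F) : U ℂ) = mk ℂ fun n => Polynomial.aeval (xx n j) c := by
      intro c
      let r2 : Polynomial ℚ →+* (ℕ → ℂ) := RingHom.pi fun n => (Polynomial.aeval (xx n j) : Polynomial ℚ →ₐ[ℚ] ℂ).toRingHom
      have h4 : (algebraMap F (U ℂ)).comp κ = (mk ℂ).comp r2 := by
        refine Polynomial.ringHom_ext' (RingHom.ext_rat _ _) ?_
        rw [RingHom.comp_apply, RingHom.comp_apply]
        show ((κ Polynomial.X : F) : U ℂ) = mk ℂ (r2 Polynomial.X)
        have h5 : κ Polynomial.X = xj := Polynomial.eval₂_X _ _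
        rw [h5]
        show mk ℂ (fun n => xx n j) = mk ℂ (r2 Polynomial.X)
        congr 1
        funext n
        show _ = Polynomial.aeval (xx n j) (Polynomial.X : Polynomial ℚ)
        rw [Polynomial.aeval_X]
      exact RingHom.congr_fun h4 c
    have hκinj : Function.Injective κ := by
      rw [injective_iff_map_eq_zero]
      intro c hc
      by_contra hc0
      have h4 := hκ c
      rw [hc] at h4
      have h5 : mk ℂ (fun n => Polynomial.aeval (xx n j) c) = 0 := h4.symm
      rw [mk_eq_zero] at h5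
      obtain ⟨n, h6, h7⟩ := (h5.and (hxx c hc0 j)).exists
      exact h7 h6
    let ρ : MvPolynomial ε (Polynomial ℚ) →+* E0 :=
      (MvPolynomial.rename (R := F) (fun i : ε => (j, i))).toRingHom.comp (MvPolynomial.map κ)
    have hρinj : Function.Injective ρ := by
      refine Function.Injective.comp (g := (MvPolynomial.rename (R := F) (fun i : ε => (j, i)))) ?_
        (MvPolynomial.map_injective κ hκinj)
      exact MvPolynomial.rename_injective _ fun i i' h => (Prod.mk.inj h).2
    refine ⟨(R s).map ρ, (Polynomial.map_ne_zero_iff hρinj).2 (hR s), ?_⟩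
    rw [Polynomial.eval₂_map]
    have h4 : f.comp ρ =
        (Ideal.Quotient.mk J).comp ((MvPolynomial.rename (R := F) e').toRingHom.comp ρ) := rfl
    rw [h4, ← Polynomial.hom_eval₂, Ideal.Quotient.eq_zero_iff_mem, hJ]
    intro ys hys
    have h5 := Polynomial.hom_eval₂ (R s) ((MvPolynomial.rename (R := F) e').toRingHom.comp ρ)
      (MvPolynomial.aeval (R := F) (pt ys)).toRingHom (MvPolynomial.X (j, s))
    refine Eq.trans h5 ?_
    let Ψ : MvPolynomial ε (Polynomial ℚ) →+* (ℕ → ℂ) := RingHom.pi fun n => spc e (xx n j) fun s => ys n (j, s)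
    have h6 : (MvPolynomial.aeval (R := F) (pt ys)).toRingHom.comp ((MvPolynomial.rename (R := F) e').toRingHom.comp ρ) =
        (mk ℂ).comp Ψ := by
      refine MvPolynomial.ringHom_ext (fun c => ?_) (fun i => ?_)
      · show MvPolynomial.aeval (pt ys) (MvPolynomial.rename e' (MvPolynomial.rename (fun i : ε => (j, i))
          (MvPolynomial.map κ (MvPolynomial.C c)))) = mk ℂ (Ψ (MvPolynomial.C c))
        rw [MvPolynomial.map_C, MvPolynomial.rename_C, MvPolynomial.rename_C, MvPolynomial.aeval_C]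
        refine (hκ c).trans ?_
        congr 1
        funext n
        show _ = spc e (xx n j) (fun s => ys n (j, s)) (MvPolynomial.C c)
        unfold spc
        rw [MvPolynomial.eval₂Hom_C]
        rfl
      · show MvPolynomial.aeval (pt ys) (MvPolynomial.rename e' (MvPolynomial.rename (fun i : ε => (j, i))
          (MvPolynomial.map κ (MvPolynomial.X i)))) = mk ℂ (Ψ (MvPolynomial.X i))
        rw [MvPolynomial.map_X, MvPolynomial.rename_X, MvPolynomial.rename_X, MvPolynomial.aeval_X]
        show mk ℂ (fun n => ys n (j, e i)) = _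
        congr 1
        funext n
        show _ = spc e (xx n j) (fun s => ys n (j, s)) (MvPolynomial.X i)
        unfold spc
        rw [MvPolynomial.eval₂Hom_X']
    rw [h6]
    have h7 : (MvPolynomial.aeval (R := F) (pt ys)).toRingHom (MvPolynomial.X (j, s)) = mk ℂ (fun n => ys n (j, s)) := by
      show MvPolynomial.aeval (pt ys) (MvPolynomial.X (j, s)) = _
      rw [MvPolynomial.aeval_X]
    rw [h7, ← Polynomial.hom_eval₂, mk_eq_zero]
    refine Eventually.of_forall fun n => ?_
    have h8 := Polynomial.hom_eval₂ (R s) Ψ (Pi.evalRingHom (fun _ => ℂ) n) (fun n => ys n (j, s))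
    refine Eq.trans h8 ?_
    exact hrel n (ys n) (hys n) j s
  have hall : ∀ q : MvPolynomial (Fin k × σ) F, Alg f (Ideal.Quotient.mk J q) := by
    intro q
    induction q using MvPolynomial.induction_on with
    | C a =>
      have h4 : Ideal.Quotient.mk J (MvPolynomial.C a) = f (MvPolynomial.C a) := by
        rw [hfm, MvPolynomial.rename_C]
      rw [h4]
      exact Alg.map (E := E0) (A := MvPolynomial (Fin k × σ) F ⧸ J) f _
    | add p q hp hq =>
      rw [map_add]
      exact Alg.add (E := E0) (A := MvPolynomial (Fin k × σ) F ⧸ J) f hp hq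
    | mul_X p a hp =>
      rw [map_mul]
      exact Alg.mul (E := E0) (A := MvPolynomial (Fin k × σ) F ⧸ J) f hp (hXalg a)
  have hQJ : Ideal.Quotient.mk J Q ≠ 0 := by
    intro h4
    rw [Ideal.Quotient.eq_zero_iff_mem, hJ] at h4
    have h5 := h4 y0 hy0
    have h6 : pt y0 = fun a => mk ℂ fun n => y0 n a := rfl
    rw [h6, hQ, mk_eq_zero] at h5
    obtain ⟨n, h7⟩ := h5.exists
    exact hPy n h7
  obtain ⟨r, hr0, hrd⟩ := Alg.dvd (E := E0) (A := MvPolynomial (Fin k × σ) F ⧸ J) f (hall Q) hQJ
  -- evaluation at the point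
  let yv : ℕ → Fin k × σ → ℂ := zp
  let θ : (MvPolynomial (Fin k × σ) F ⧸ J) →+* U ℂ :=
    Ideal.Quotient.lift J (MvPolynomial.aeval (R := F) (pt yv)).toRingHom fun q hq => (hJ q).1 hq yv hmem
  have h4 : θ (Ideal.Quotient.mk J Q) = 0 := by
    show MvPolynomial.aeval (pt yv) Q = 0
    have h6 : pt yv = fun a => mk ℂ fun n => yv n a := rfl
    rw [h6, hQ, mk_eq_zero]
    exact Eventually.of_forall fun n => hP0 n
  have h5 : θ (f r) = 0 := by
    obtain ⟨u, hu⟩ := hrd
    rw [hu, map_mul, h4, zero_mul]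
  have h6 : MvPolynomial.aeval z r = 0 := by
    rw [← h5, hfm]
    show _ = MvPolynomial.aeval (pt yv) (MvPolynomial.rename e' r)
    rw [MvPolynomial.aeval_rename]
    rfl
  exact hr0 ((algebraicIndependent_iff.1 h3) r h6)

end Pool.Agent.Y430.AF
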